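import Pool.Agent.H54.V.J.HC1
set_option autoImplicit false
namespace Pool.Agent.H54.W
open Pool.Agent.H54.V

/-- the kissing number of the unit ball in dimension three is at most twelve. -/
theorem kiss12 (n : ℕ) (x : Fin n → E3) (hx : ∀ i, ‖x i‖ = 1)
    (h : ∀ i j, i ≠ j → inner ℝ (x i) (x j) ≤ (1 / 2 : ℝ)) : n ≤ 12 := by
  by_contra hn
  have hn' : 13 ≤ n := by omega
  have h1 := hc1 (fun i : Fin 12 => x ⟨i.1, by omega⟩) (fun _ => x ⟨12, by omega⟩) (fun i => hx _)
    (fun _ => hx _) (fun i j hij => (h _ _ (by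
      intro hh; exact hij (Fin.ext (by simpa using congrArg Fin.val hh)))).trans (by norm_num))
    (fun i a => (h _ _ (by
      intro hh; have := congrArg Fin.val hh; simp at this; omega)).trans (by norm_num))
    (fun a b hab => absurd (Subsingleton.elim a b) hab)
  have h2 : en (fun i : Fin 12 => x ⟨i.1, by omega⟩) (fun _ : Fin 1 => x ⟨12, by omega⟩) (fun _ => (0.5 : ℝ)) = 0 := by
    unfold en pairSum
    have e1 : ∀ i j : Fin 12, (if i < j then max 0 (inner ℝ (x ⟨i.1, by omega⟩) (x ⟨j.1, by omega⟩) - 1 / 2 : ℝ) else 0) = 0 := by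
      intro i j
      split_ifs with hij
      · apply max_eq_left
        have := h ⟨i.1, by omega⟩ ⟨j.1, by omega⟩ (by
          intro hh; have := congrArg Fin.val hh; simp at this; omega)
        linarith
      · rfl
    have e2 : ∀ (a : Fin 1) (i : Fin 12), max 0 (inner ℝ (x ⟨i.1, by omega⟩) (x ⟨12, by omega⟩) - (0.5 : ℝ)) = 0 := by
      intro a i
      apply max_eq_left
      have := h ⟨i.1, by omega⟩ ⟨12, by omega⟩ (by
        intro hh; have := congrArg Fin.val hh; simp at this; omega)
      norm_num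
      linarith
    simp only [e1, Finset.sum_const_zero, zero_add]
    exact Finset.sum_eq_zero fun a _ => Finset.sum_eq_zero fun i _ => e2 a i
  rw [h2] at h1
  norm_num at h1

end Pool.Agent.H54.W
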